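import Mathlib
import Pool.Agent.Lib.MP_87489e_co.BusMain
import Pool.Agent.Lib.MP_87489e_co.Simplex

set_option autoImplicit false

namespace Pool.Agent.Results.MP_87489e_co.BusMinimum

open MeasureTheory Set Pointwise Pool.Agent.Lib.MP_87489e_co

/-- A convex body: a compact convex set with nonempty interior. -/
def IsConvexBody {d : ℕ} (K : Set (Fin d → ℝ)) : Prop :=
  IsCompact K ∧ Convex ℝ K ∧ (interior K).Nonempty

/-- The unit ball `M = (1/2)(K - K)` of the relative norm of `K`. -/
def relBall {d : ℕ} (K : Set (Fin d → ℝ)) : Set (Fin d → ℝ) := (1 / 2 : ℝ) • (K - K)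

/-- The volume `κ_d` of the Euclidean unit ball of dimension `d`. -/
noncomputable def kappa (d : ℕ) : ENNReal :=
  volume (Metric.ball (0 : EuclideanSpace ℝ (Fin d)) 1)

/-- Busemann volume of `S` for the norm with unit ball `M`. -/
noncomputable def busVol {d : ℕ} (M S : Set (Fin d → ℝ)) : ENNReal :=
  kappa d / volume M * volume S

/-- `c_tr^Bus(K)`: the supremum of the Busemann volume (in the relative norm of `K`) of the convex
hull of `K` and a translate `p + K` meeting `K`. -/
noncomputable def cTrBus {d : ℕ} (K : Set (Fin d → ℝ)) : ENNReal :=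
  ⨆ (p : Fin d → ℝ) (_ : ((p +ᵥ K) ∩ K).Nonempty),
    busVol (relBall K) (convexHull ℝ (K ∪ (p +ᵥ K)))

theorem cTrBus_eq {d : ℕ} (K : Set (Fin d → ℝ)) :
    cTrBus K = kappa d / volume (relBall K) * supHull K := by
  simp only [cTrBus, busVol, supHull, ENNReal.mul_iSup]

theorem relBall_volume (K : Set (Fin 3 → ℝ)) : 8 * volume (relBall K) = volume (K - K) := by
  rw [relBall, Measure.addHaar_smul]
  simp only [Module.finrank_fintype_fun_eq_card, Fintype.card_fin]
  have : (8 : ENNReal) = ENNReal.ofReal 8 := by norm_num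
  rw [← mul_assoc, this, ← ENNReal.ofReal_mul (by norm_num)]
  have h : (8:ℝ) * |(1 / 2 : ℝ) ^ 3| = 1 := by
    rw [abs_of_pos (by positivity)]; norm_num
  rw [h]
  simp

theorem diff_pos {K : Set (Fin 3 → ℝ)} (hK : IsConvexBody K) : volume (K - K) ≠ 0 := by
  have h := diff_nhds hK.2.2
  exact (MeasureTheory.Measure.measure_pos_of_mem_nhds volume h).ne'

theorem diff_ne_top {K : Set (Fin 3 → ℝ)} (hK : IsConvexBody K) : volume (K - K) ≠ ⊤ := by
  rw [sub_eq_add_neg]
  exact (hK.1.add hK.1.neg).measure_lt_top.ne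

theorem rel_ne_zero {K : Set (Fin 3 → ℝ)} (hK : IsConvexBody K) : volume (relBall K) ≠ 0 := by
  intro h
  apply diff_pos hK
  rw [← relBall_volume, h, mul_zero]

theorem rel_ne_top {K : Set (Fin 3 → ℝ)} (hK : IsConvexBody K) : volume (relBall K) ≠ ⊤ := by
  intro h
  apply diff_ne_top hK
  rw [← relBall_volume, h]
  exact ENNReal.mul_top (by norm_num)

theorem kappa_three : kappa 3 = ENNReal.ofReal (Real.pi * 4 / 3) := by
  rw [kappa, EuclideanSpace.volume_ball_fin_three]
  simp

theorem const_eq : ENNReal.ofReal (32 * Real.pi / 15) = kappa 3 * ENNReal.ofReal (8 / 5) := by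
  rw [kappa_three, ← ENNReal.ofReal_mul (by positivity)]
  congr 1
  ring

theorem lower {K : Set (Fin 3 → ℝ)} (hK : IsConvexBody K) :
    ENNReal.ofReal (32 * Real.pi / 15) ≤ cTrBus K := by
  rw [cTrBus_eq, const_eq]
  have h1 := diff_le hK.1 hK.2.1 hK.2.2
  rw [← relBall_volume] at h1
  have h0 := rel_ne_zero hK
  have ht := rel_ne_top hK
  generalize volume (relBall K) = M at *
  generalize supHull K = S at *
  have h2 : ENNReal.ofReal (8 / 5) * M ≤ S := by
    have h3 : ENNReal.ofReal (8 / 5) * M = ENNReal.ofReal (1 / 5) * (8 * M) := by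
      have : (8 : ENNReal) = ENNReal.ofReal 8 := by norm_num
      rw [← mul_assoc, this, ← ENNReal.ofReal_mul (by norm_num)]
      norm_num
    have h4 : ENNReal.ofReal (1 / 5) * (5 * S) = S := by
      have : (5 : ENNReal) = ENNReal.ofReal 5 := by norm_num
      rw [← mul_assoc, this, ← ENNReal.ofReal_mul (by norm_num)]
      norm_num
    rw [h3, ← h4]
    gcongr
  have hM : M⁻¹ * M = 1 := ENNReal.inv_mul_cancel h0 ht
  calc kappa 3 * ENNReal.ofReal (8 / 5) = kappa 3 * M⁻¹ * (ENNReal.ofReal (8 / 5) * M) := by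
        rw [show kappa 3 * M⁻¹ * (ENNReal.ofReal (8 / 5) * M) =
          kappa 3 * ENNReal.ofReal (8 / 5) * (M⁻¹ * M) by ring, hM, mul_one]
    _ ≤ kappa 3 / M * S := by
        rw [div_eq_mul_inv]
        exact mul_le_mul_right h2 _

theorem tetra_body : IsConvexBody tetra := ⟨tetra_compact, tetra_convex, tetra_interior⟩

theorem attained : cTrBus tetra = ENNReal.ofReal (32 * Real.pi / 15) := by
  apply le_antisymm _ (lower tetra_body)
  rw [cTrBus_eq, const_eq]
  have hS : supHull tetra ≤ 4 * volume tetra := by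
    refine iSup_le fun p => iSup_le fun hp => ?_
    obtain ⟨_, ⟨a, ha, rfl⟩, ha1⟩ := hp
    have := hull_le_general tetra_compact tetra_convex p ha (by simpa [add_comm] using ha1)
    exact_mod_cast this
  have h1 := tetra_diff
  rw [← relBall_volume] at h1
  have h0 := rel_ne_zero tetra_body
  have ht := rel_ne_top tetra_body
  generalize volume (relBall tetra) = M at *
  generalize supHull tetra = S at *
  generalize volume tetra = V at *
  have h2 : S ≤ ENNReal.ofReal (8 / 5) * M := by
    have h3 : ENNReal.ofReal (8 / 5) * M = ENNReal.ofReal (1 / 5) * (8 * M) := by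
      have : (8 : ENNReal) = ENNReal.ofReal 8 := by norm_num
      rw [← mul_assoc, this, ← ENNReal.ofReal_mul (by norm_num)]
      norm_num
    have h4 : ENNReal.ofReal (1 / 5) * (20 * V) = 4 * V := by
      have : (20 : ENNReal) = ENNReal.ofReal 20 := by norm_num
      rw [← mul_assoc, this, ← ENNReal.ofReal_mul (by norm_num)]
      norm_num
    rw [h3]
    refine hS.trans ?_
    rw [← h4]
    gcongr
  have hM : M⁻¹ * M = 1 := ENNReal.inv_mul_cancel h0 ht
  calc kappa 3 / M * S ≤ kappa 3 / M * (ENNReal.ofReal (8 / 5) * M) := by gcongr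
    _ = kappa 3 * ENNReal.ofReal (8 / 5) * (M⁻¹ * M) := by
        rw [div_eq_mul_inv]; ring
    _ = kappa 3 * ENNReal.ofReal (8 / 5) := by rw [hM, mul_one]

/-- The minimum of `c_tr^Bus(K)` (Busemann volume) over all convex bodies `K` in `ℝ^3` is
`32 π / 15`, and it is attained (by tetrahedra). -/
theorem result :
    IsLeast {c : ENNReal | ∃ K : Set (Fin 3 → ℝ), IsConvexBody K ∧ c = cTrBus K}
      (ENNReal.ofReal (32 * Real.pi / 15)) := by
  constructor
  · exact ⟨tetra, tetra_body, attained.symm⟩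
  · rintro _ ⟨K, hK, rfl⟩
    exact lower hK

end Pool.Agent.Results.MP_87489e_co.BusMinimum
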