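import Mathlib
import Pool.Agent.Lib.MP_87489e_co.Ord.Bound
import Pool.Agent.Lib.MP_87489e_co.Ord.Polar
import Pool.Agent.Lib.MP_87489e_co.Ord.Cov
import Pool.Agent.Lib.MP_87489e_co.Ord.Union
import Pool.Agent.Lib.MP_87489e_co.Ord.Hom
import Pool.Agent.Lib.MP_87489e_co.Ord.Model
import Pool.Agent.Lib.MP_87489e_co.Ord.Mono
import Pool.Agent.Lib.MP_87489e_co.Ord.SimplexCov

set_option autoImplicit false

namespace Pool.Agent.Results.MP_87489e_co.BusemannOrder

open MeasureTheory Set Pointwise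

/-- A convex body: a compact convex set with nonempty interior. -/
def IsConvexBody {d : ℕ} (K : Set (Fin d → ℝ)) : Prop :=
  IsCompact K ∧ Convex ℝ K ∧ (interior K).Nonempty

/-- The unit ball `M = (1/2)(K - K)` of the relative norm of `K`. -/
def relBall {d : ℕ} (K : Set (Fin d → ℝ)) : Set (Fin d → ℝ) := (1 / 2 : ℝ) • (K - K)

/-- The volume `κ_d` of the Euclidean unit ball of dimension `d`. -/
noncomputable def kappa (d : ℕ) : ENNReal :=
  volume (Metric.ball (0 : EuclideanSpace ℝ (Fin d)) 1)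

/-- Busemann volume of `S` for the norm with unit ball `M`. -/
noncomputable def busVol {d : ℕ} (M S : Set (Fin d → ℝ)) : ENNReal :=
  kappa d / volume M * volume S

/-- `c_tr^Bus(K)`: the supremum of the Busemann volume (in the relative norm of `K`) of the convex
hull of `K` and a translate `p + K` meeting `K`. -/
noncomputable def cTrBus {d : ℕ} (K : Set (Fin d → ℝ)) : ENNReal :=
  ⨆ (p : Fin d → ℝ) (_ : ((p +ᵥ K) ∩ K).Nonempty),
    busVol (relBall K) (convexHull ℝ (K ∪ (p +ᵥ K)))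

/-- The supremum of the Lebesgue volumes of the hulls of `K` and a translate meeting `K`. -/
noncomputable def hullVol {d : ℕ} (K : Set (Fin d → ℝ)) : ENNReal :=
  ⨆ (p : Fin d → ℝ) (_ : ((p +ᵥ K) ∩ K).Nonempty), volume (convexHull ℝ (K ∪ (p +ᵥ K)))

/-- the value `2^d κ_d / Cat_d` -/
noncomputable def simplexValue (d : ℕ) : ENNReal :=
  kappa d * ENNReal.ofReal (2 ^ d / (catalan d : ℝ))

theorem ray : Pool.Agent.Lib.MP_87489e_co.Ord.StRay := Pool.Agent.Lib.MP_87489e_co.Ord.stRay Pool.Agent.Lib.MP_87489e_co.Ord.stUnion Pool.Agent.Lib.MP_87489e_co.Ord.stHom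

theorem mainIneq : Pool.Agent.Lib.MP_87489e_co.Ord.StMain :=
  Pool.Agent.Lib.MP_87489e_co.Ord.stMain Pool.Agent.Lib.MP_87489e_co.Ord.stPolar Pool.Agent.Lib.MP_87489e_co.Ord.stCov ray Pool.Agent.Lib.MP_87489e_co.Ord.stRadial Pool.Agent.Lib.MP_87489e_co.Ord.stModel Pool.Agent.Lib.MP_87489e_co.Ord.stMono

theorem hullVol_eq {d : ℕ} (K : Set (Fin d → ℝ)) :
    hullVol K = Pool.Agent.Lib.MP_87489e_co.supHull K := rfl

theorem cTrBus_eq {d : ℕ} (K : Set (Fin d → ℝ)) :
    cTrBus K = kappa d / volume (relBall K) * hullVol K := by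
  simp only [cTrBus, busVol, hullVol, ENNReal.mul_iSup]

theorem rel_ne_zero {d : ℕ} {K : Set (Fin d → ℝ)} (hK : IsConvexBody K) :
    volume (relBall K) ≠ 0 := by
  rw [relBall, Measure.addHaar_smul]
  have h := Pool.Agent.Lib.MP_87489e_co.diff_nhds hK.2.2
  have h1 : volume (K - K) ≠ 0 := (MeasureTheory.Measure.measure_pos_of_mem_nhds volume h).ne'
  refine mul_ne_zero ?_ h1
  rw [Ne, ENNReal.ofReal_eq_zero, not_le]
  positivity

theorem rel_ne_top {d : ℕ} {K : Set (Fin d → ℝ)} (hK : IsConvexBody K) :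
    volume (relBall K) ≠ ⊤ :=
  ((Pool.Agent.Lib.MP_87489e_co.Ord.diff_compact hK.1).smul _).measure_lt_top.ne

/-- lower bound with a factor `f` at most `fac` -/
theorem lower {d : ℕ} (hd : 2 ≤ d) {K : Set (Fin d → ℝ)} (hK : IsConvexBody K) {f : ℝ}
    (hf : f ≤ Pool.Agent.Lib.MP_87489e_co.Ord.fac d ((hullVol K).toReal / (volume K).toReal - 1)) :
    kappa d * ENNReal.ofReal (2 ^ d / (catalan d : ℝ) * f) ≤ cTrBus K := by
  have h := Pool.Agent.Lib.MP_87489e_co.Ord.bound ray Pool.Agent.Lib.MP_87489e_co.Ord.stRadial mainIneq hd hK.1 hK.2.1 hK.2.2 hf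
  rw [cTrBus_eq]
  have h0 := rel_ne_zero hK
  have ht := rel_ne_top hK
  change _ * volume (relBall K) ≤ hullVol K at h
  have hM : (volume (relBall K))⁻¹ * volume (relBall K) = 1 := ENNReal.inv_mul_cancel h0 ht
  calc kappa d * ENNReal.ofReal (2 ^ d / (catalan d : ℝ) * f) =
      kappa d * (volume (relBall K))⁻¹ *
        (ENNReal.ofReal (2 ^ d / (catalan d : ℝ) * f) * volume (relBall K)) := by
        rw [show kappa d * (volume (relBall K))⁻¹ *
          (ENNReal.ofReal (2 ^ d / (catalan d : ℝ) * f) * volume (relBall K)) =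
          kappa d * ENNReal.ofReal (2 ^ d / (catalan d : ℝ) * f) *
            ((volume (relBall K))⁻¹ * volume (relBall K)) by ring, hM, mul_one]
    _ ≤ kappa d / volume (relBall K) * hullVol K := by
        rw [div_eq_mul_inv]
        exact mul_le_mul_right h _

/-- the ratio minus one is positive -/
theorem ratio_pos {d : ℕ} (hd : 2 ≤ d) {K : Set (Fin d → ℝ)} (hK : IsConvexBody K) :
    0 < (hullVol K).toReal / (volume K).toReal - 1 := by
  have h1 := Pool.Agent.Lib.MP_87489e_co.Ord.hull_gap ray Pool.Agent.Lib.MP_87489e_co.Ord.stRadial hd hK.1 hK.2.1 hK.2.2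
  have h2 := Pool.Agent.Lib.MP_87489e_co.Ord.vol_pos hK.1 hK.2.2
  rw [sub_pos, lt_div_iff₀ h2, one_mul]
  exact h1

theorem simplex_body {d : ℕ} (hd : 2 ≤ d) :
    IsConvexBody (Pool.Agent.Lib.MP_87489e_co.Tn d) :=
  ⟨Pool.Agent.Lib.MP_87489e_co.Tn_compact d, Pool.Agent.Lib.MP_87489e_co.Tn_convex d,
    Pool.Agent.Lib.MP_87489e_co.Ord.Tn_interior (by omega)⟩

theorem simplex_le {d : ℕ} (hd : 2 ≤ d) :
    cTrBus (Pool.Agent.Lib.MP_87489e_co.Tn d) ≤ simplexValue d := by
  have hK := simplex_body hd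
  have hdiff := Pool.Agent.Lib.MP_87489e_co.Ord.stSimplexDiff Pool.Agent.Lib.MP_87489e_co.Ord.stPolar Pool.Agent.Lib.MP_87489e_co.Ord.stCov Pool.Agent.Lib.MP_87489e_co.Ord.stRadial Pool.Agent.Lib.MP_87489e_co.Ord.stBeta Pool.Agent.Lib.MP_87489e_co.Ord.stSimplexCov
    d (by omega)
  rw [cTrBus_eq, simplexValue]
  have h0 := rel_ne_zero hK
  have ht := rel_ne_top hK
  obtain ⟨m, rfl⟩ : ∃ m, d = m + 1 := ⟨d - 1, by omega⟩
  have hS := Pool.Agent.Lib.MP_87489e_co.Ord.supHull_le hK.1 hK.2.1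
  rw [← hullVol_eq] at hS
  set T := Pool.Agent.Lib.MP_87489e_co.Tn (m + 1)
  have hN : (0:ℝ) < ((m + 1).centralBinom : ℝ) := by exact_mod_cast (m + 1).centralBinom_pos
  have hcat : (((m + 1 : ℕ) : ℝ) + 1) * (catalan (m + 1) : ℝ) = ((m + 1).centralBinom : ℝ) := by
    exact_mod_cast succ_mul_catalan_eq_centralBinom (m + 1)
  have hc : (0:ℝ) < (catalan (m + 1) : ℝ) := by
    have h1 : (0:ℝ) < (((m + 1 : ℕ) : ℝ) + 1) * (catalan (m + 1) : ℝ) := by rw [hcat]; exact hN
    exact pos_of_mul_pos_right h1 (by positivity)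
  have hrel : volume (relBall T) = ENNReal.ofReal ((1 / 2) ^ (m + 1)) * volume (T - T) := by
    rw [relBall, Measure.addHaar_smul]
    simp only [Module.finrank_fintype_fun_eq_card, Fintype.card_fin]
    rw [abs_of_pos (by positivity)]
  -- `hullVol T ≤ (2^d / Cat_d) * vol (relBall T)`
  have key : hullVol T ≤ ENNReal.ofReal (2 ^ (m + 1) / (catalan (m + 1) : ℝ)) * volume (relBall T) := by
    refine hS.trans ?_
    rw [hrel, ← mul_assoc, ← ENNReal.ofReal_mul (by positivity)]
    have e : 2 ^ (m + 1) / (catalan (m + 1) : ℝ) * (1 / 2) ^ (m + 1) = 1 / (catalan (m + 1) : ℝ) := by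
      rw [one_div, inv_pow]
      field_simp
    rw [e]
    calc ((m + 2 : ℕ) : ENNReal) * volume T =
        ENNReal.ofReal (1 / (catalan (m + 1) : ℝ)) * (((m + 1).centralBinom : ENNReal) * volume T) := by
          have e2 : ((m + 1).centralBinom : ENNReal) = ENNReal.ofReal ((m + 1).centralBinom : ℝ) := by
            simp
          have e3 : ((m + 2 : ℕ) : ENNReal) = ENNReal.ofReal ((m + 2 : ℕ) : ℝ) := by
            rw [ENNReal.ofReal_natCast]
          rw [e2, e3, ← mul_assoc, ← ENNReal.ofReal_mul (by positivity), ← hcat]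
          congr 2
          push_cast
          field_simp
          ring
      _ ≤ _ := by gcongr
  have hM : (volume (relBall T))⁻¹ * volume (relBall T) = 1 := ENNReal.inv_mul_cancel h0 ht
  calc kappa (m + 1) / volume (relBall T) * hullVol T ≤
      kappa (m + 1) / volume (relBall T) *
        (ENNReal.ofReal (2 ^ (m + 1) / (catalan (m + 1) : ℝ)) * volume (relBall T)) := by gcongr
    _ = kappa (m + 1) * ENNReal.ofReal (2 ^ (m + 1) / (catalan (m + 1) : ℝ)) *
        ((volume (relBall T))⁻¹ * volume (relBall T)) := by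
        rw [div_eq_mul_inv]; ring
    _ = _ := by rw [hM, mul_one]

/-- For every dimension `d ≥ 2` the infimum of `c_tr^Bus(K)` over all convex bodies is
`2^d κ_d / Cat_d` up to a factor between `e/4` and `1`. -/
theorem result (d : ℕ) (hd : 2 ≤ d) :
    (∃ K : Set (Fin d → ℝ), IsConvexBody K ∧ cTrBus K ≤ simplexValue d) ∧
    (∀ K : Set (Fin d → ℝ), IsConvexBody K →
      simplexValue d * ENNReal.ofReal ((((d : ℝ) + 2) / (d + 1)) ^ (d + 2) / 4) ≤ cTrBus K) ∧
    Real.exp 1 / 4 ≤ (((d : ℝ) + 2) / (d + 1)) ^ (d + 2) / 4 ∧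
    (∀ (K : Set (Fin d → ℝ)) (r : ℝ), IsConvexBody K → 0 < r →
      hullVol K = ENNReal.ofReal (1 + r) * volume K →
      simplexValue d * ENNReal.ofReal (((1 + r) / (d + 1)) ^ (d + 2) * (d / r) ^ d) ≤ cTrBus K) ∧
    (∀ K : Set (Fin d → ℝ), IsConvexBody K →
      hullVol K ≤ ENNReal.ofReal (1 + d / 4) * volume K → simplexValue d ≤ cTrBus K) := by
  have hsv : ∀ f : ℝ, simplexValue d * ENNReal.ofReal f =
      kappa d * ENNReal.ofReal (2 ^ d / (catalan d : ℝ) * f) := by
    intro f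
    rw [simplexValue, mul_assoc, ← ENNReal.ofReal_mul (by positivity)]
  refine ⟨⟨_, simplex_body hd, simplex_le hd⟩, ?_, ?_, ?_, ?_⟩
  · intro K hK
    rw [hsv]
    exact lower hd hK (Pool.Agent.Lib.MP_87489e_co.Ord.fac_ge d (by omega) (ratio_pos hd hK))
  · have := Pool.Agent.Lib.MP_87489e_co.Ord.exp_le d
    linarith
  · intro K r hK hr hKr
    rw [hsv]
    apply lower hd hK
    have hV := Pool.Agent.Lib.MP_87489e_co.Ord.vol_pos hK.1 hK.2.2
    have e : (hullVol K).toReal / (volume K).toReal - 1 = r := by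
      rw [hKr, ENNReal.toReal_mul, ENNReal.toReal_ofReal (by linarith), mul_div_assoc,
        div_self hV.ne', mul_one]
      ring
    rw [e, Pool.Agent.Lib.MP_87489e_co.Ord.fac]
  · intro K hK hKr
    have hV := Pool.Agent.Lib.MP_87489e_co.Ord.vol_pos hK.1 hK.2.2
    have hr := ratio_pos hd hK
    have hdR : (0:ℝ) ≤ d := Nat.cast_nonneg d
    have hle : (hullVol K).toReal / (volume K).toReal - 1 ≤ d / 4 := by
      have h1 := ENNReal.toReal_mono (ENNReal.mul_ne_top ENNReal.ofReal_ne_top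
        hK.1.measure_lt_top.ne) hKr
      rw [ENNReal.toReal_mul, ENNReal.toReal_ofReal (by positivity)] at h1
      have h2 : (hullVol K).toReal / (volume K).toReal ≤ 1 + d / 4 := by
        rw [div_le_iff₀ hV]; exact h1
      linarith
    have h3 := Pool.Agent.Lib.MP_87489e_co.Ord.fac_anti d (by omega) hr hle (by linarith)
    have h4 := Pool.Agent.Lib.MP_87489e_co.Ord.fac_quarter d hd
    have h5 := lower hd hK (f := 1) (h4.trans h3)
    rw [← hsv, ENNReal.ofReal_one, mul_one] at h5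
    exact h5

end Pool.Agent.Results.MP_87489e_co.BusemannOrder
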