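import Mathlib
import Pool.Agent.Lib.MP_87489e_co.HT.All
import Pool.Agent.Lib.MP_87489e_co.HT.G1
import Pool.Agent.Lib.MP_87489e_co.HT.G2
import Pool.Agent.Lib.MP_87489e_co.HT.G3
import Pool.Agent.Lib.MP_87489e_co.HT.G4
import Pool.Agent.Lib.MP_87489e_co.HT.Z3

set_option autoImplicit false

namespace Pool.Agent.Results.MP_87489e_co.HolmesThompsonMinimum

open MeasureTheory Set Pointwise Pool.Agent.Lib.MP_87489e_co

/-- A convex body: a compact convex set with nonempty interior. -/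
def IsConvexBody {d : ℕ} (K : Set (Fin d → ℝ)) : Prop :=
  IsCompact K ∧ Convex ℝ K ∧ (interior K).Nonempty

/-- The unit ball `M = (1/2)(K - K)` of the relative norm of `K`. -/
def relBall {d : ℕ} (K : Set (Fin d → ℝ)) : Set (Fin d → ℝ) := (1 / 2 : ℝ) • (K - K)

/-- The polar body `M° = {y | ⟨x, y⟩ ≤ 1 for all x ∈ M}`. -/
def polar {d : ℕ} (M : Set (Fin d → ℝ)) : Set (Fin d → ℝ) := {y | ∀ x ∈ M, ∑ i, x i * y i ≤ 1}

/-- The volume `κ_d` of the Euclidean unit ball of dimension `d`. -/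
noncomputable def kappa (d : ℕ) : ENNReal :=
  volume (Metric.ball (0 : EuclideanSpace ℝ (Fin d)) 1)

/-- Holmes-Thompson volume of `S` for the norm with unit ball `M`. -/
noncomputable def htVol {d : ℕ} (M S : Set (Fin d → ℝ)) : ENNReal :=
  volume (polar M) / kappa d * volume S

/-- `c_tr^HT(K)`: the supremum of the Holmes-Thompson volume (in the relative norm of `K`) of the
convex hull of `K` and a translate `p + K` meeting `K`. -/
noncomputable def cTrHT {d : ℕ} (K : Set (Fin d → ℝ)) : ENNReal :=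
  ⨆ (p : Fin d → ℝ) (_ : ((p +ᵥ K) ∩ K).Nonempty),
    htVol (relBall K) (convexHull ℝ (K ∪ (p +ᵥ K)))

theorem cTrHT_eq {d : ℕ} (K : Set (Fin d → ℝ)) :
    cTrHT K = volume (polar (relBall K)) / kappa d * supHull K := by
  simp only [cTrHT, htVol, supHull, ENNReal.mul_iSup]

theorem polar_eq (M : Set (Fin 3 → ℝ)) : polar M = HT.pol M := rfl

theorem kappa_three : kappa 3 = ENNReal.ofReal (Real.pi * 4 / 3) := by
  rw [kappa, EuclideanSpace.volume_ball_fin_three]
  simp

theorem kappa_ne_zero : kappa 3 ≠ 0 := by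
  rw [kappa_three]
  have : 0 < Real.pi * 4 / 3 := by positivity
  simpa using this

theorem kappa_ne_top : kappa 3 ≠ ⊤ := by
  rw [kappa_three]
  exact ENNReal.ofReal_ne_top

theorem const_eq : ENNReal.ofReal (16 / Real.pi) = (kappa 3)⁻¹ * ENNReal.ofReal (64 / 3) := by
  have h1 : ENNReal.ofReal (64 / 3) = kappa 3 * ENNReal.ofReal (16 / Real.pi) := by
    rw [kappa_three, ← ENNReal.ofReal_mul (by positivity)]
    congr 1
    have := Real.pi_ne_zero
    field_simp
    norm_num
  rw [h1, ← mul_assoc, ENNReal.inv_mul_cancel kappa_ne_zero kappa_ne_top, one_mul]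

theorem cTrHT_eq' (K : Set (Fin 3 → ℝ)) :
    cTrHT K = (kappa 3)⁻¹ * (volume (HT.pol ((1 / 2 : ℝ) • (K - K))) * supHull K) := by
  rw [cTrHT_eq, polar_eq, relBall, div_eq_mul_inv]
  ring

theorem lower {K : Set (Fin 3 → ℝ)} (hK : IsConvexBody K) :
    ENNReal.ofReal (16 / Real.pi) ≤ cTrHT K := by
  rw [cTrHT_eq', const_eq]
  gcongr
  exact HT.lower_enn HT.stCore HT.stArea HT.stRS HT.stApprox hK.1 hK.2.1 hK.2.2

theorem simplex_body : IsConvexBody (Tn 3) :=
  ⟨Tn_compact 3, Tn_convex 3, Ord.Tn_interior (by norm_num)⟩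

theorem attained : cTrHT (Tn 3) = ENNReal.ofReal (16 / Real.pi) := by
  apply le_antisymm _ (lower simplex_body)
  rw [cTrHT_eq', const_eq]
  gcongr
  exact HT.upper_enn HT.stUpper

/-- The minimum of `c_tr^HT(K)` (Holmes-Thompson volume) over all convex bodies `K` in `ℝ^3` is
`16 / π`, and it is attained (by tetrahedra). -/
theorem result :
    IsLeast {c : ENNReal | ∃ K : Set (Fin 3 → ℝ), IsConvexBody K ∧ c = cTrHT K}
      (ENNReal.ofReal (16 / Real.pi)) := by
  constructor
  · exact ⟨Tn 3, simplex_body, attained.symm⟩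
  · rintro _ ⟨K, hK, rfl⟩
    exact lower hK

end Pool.Agent.Results.MP_87489e_co.HolmesThompsonMinimum
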