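import Mathlib
import Pool.Agent.Lib.MP_87489e_co.Cross

set_option autoImplicit false

namespace Pool.Agent.Results.MP_87489e_co.MassMinimum

open MeasureTheory Set Pointwise Pool.Agent.Lib.MP_87489e_co

/-- A convex body: a compact convex set with nonempty interior. -/
def IsConvexBody {d : ℕ} (K : Set (Fin d → ℝ)) : Prop :=
  IsCompact K ∧ Convex ℝ K ∧ (interior K).Nonempty

/-- The unit ball `M = (1/2)(K - K)` of the relative norm of `K`. -/
def relBall {d : ℕ} (K : Set (Fin d → ℝ)) : Set (Fin d → ℝ) := (1 / 2 : ℝ) • (K - K)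

/-- The cross-polytope with centre `c` and vertices `c + v i`, `c - v i`, `i = 1, ..., d`. -/
def cross {d : ℕ} (c : Fin d → ℝ) (v : Fin d → (Fin d → ℝ)) : Set (Fin d → ℝ) :=
  convexHull ℝ (range (fun i => c + v i) ∪ range (fun i => c - v i))

/-- The maximal volume of a cross-polytope inscribed in `M`. -/
noncomputable def maxCrossVol {d : ℕ} (M : Set (Fin d → ℝ)) : ENNReal :=
  ⨆ (c : Fin d → ℝ) (v : Fin d → (Fin d → ℝ)) (_ : cross c v ⊆ M), volume (cross c v)

/-- Gromov's mass: the multiple of Lebesgue measure for which a cross-polytope of maximal volume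
inscribed in `M` has volume `2 ^ d / d!`. -/
noncomputable def massVol {d : ℕ} (M S : Set (Fin d → ℝ)) : ENNReal :=
  ENNReal.ofReal (2 ^ d / d.factorial) / maxCrossVol M * volume S

/-- `c_tr^m(K)`: the supremum of the mass (in the relative norm of `K`) of the convex hull of `K`
and a translate `p + K` meeting `K`. -/
noncomputable def cTrMass {d : ℕ} (K : Set (Fin d → ℝ)) : ENNReal :=
  ⨆ (p : Fin d → ℝ) (_ : ((p +ᵥ K) ∩ K).Nonempty),
    massVol (relBall K) (convexHull ℝ (K ∪ (p +ᵥ K)))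

theorem relBall_compact {d : ℕ} {K : Set (Fin d → ℝ)} (hK : IsConvexBody K) :
    IsCompact (relBall K) := by
  have : IsCompact (K - K) := by
    rw [sub_eq_add_neg]
    exact hK.1.add hK.1.neg
  exact this.smul _

theorem relBall_convex {d : ℕ} {K : Set (Fin d → ℝ)} (hK : IsConvexBody K) :
    Convex ℝ (relBall K) := (hK.2.1.sub hK.2.1).smul _

theorem relBall_neg {d : ℕ} {K : Set (Fin d → ℝ)} {x : Fin d → ℝ} (hx : x ∈ relBall K) :
    -x ∈ relBall K := by
  obtain ⟨_, ⟨a, ha, b, hb, rfl⟩, rfl⟩ := hx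
  refine ⟨b - a, ⟨b, hb, a, ha, rfl⟩, ?_⟩
  simp only
  module

theorem relBall_chord {d : ℕ} {K : Set (Fin d → ℝ)} {x : Fin d → ℝ} (hx : x ∈ relBall K) :
    ∃ a ∈ K, a + (2 : ℝ) • x ∈ K := by
  obtain ⟨_, ⟨a, ha, b, hb, rfl⟩, rfl⟩ := hx
  refine ⟨b, hb, ?_⟩
  convert ha using 1
  simp only
  module

theorem relBall_zero_nhds {d : ℕ} {K : Set (Fin d → ℝ)} (hK : IsConvexBody K) :
    relBall K ∈ nhds (0 : Fin d → ℝ) := by
  obtain ⟨x, hx⟩ := hK.2.2
  have h1 : K - {x} ⊆ K - K := by
    rintro _ ⟨a, ha, b, hb, rfl⟩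
    rw [mem_singleton_iff] at hb
    subst hb
    exact ⟨a, ha, b, interior_subset hx, rfl⟩
  have h2 : K - K ∈ nhds (0 : Fin d → ℝ) := by
    apply Filter.mem_of_superset _ h1
    have hK' : K ∈ nhds x := mem_interior_iff_mem_nhds.mp hx
    have : (fun y => y + x) ⁻¹' K ∈ nhds (0 : Fin d → ℝ) := by
      apply (continuous_id.add continuous_const).continuousAt.preimage_mem_nhds
      simpa using hK'
    apply Filter.mem_of_superset this
    intro y hy
    exact ⟨y + x, hy, x, rfl, by simp⟩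
  have := (set_smul_mem_nhds_zero_iff (s := K - K) (c := (1 / 2 : ℝ)) (by norm_num)).mpr h2
  exact this

theorem maxCrossVol_ne_top {d : ℕ} {K : Set (Fin d → ℝ)} (hK : IsConvexBody K) :
    maxCrossVol (relBall K) ≠ ⊤ := by
  have h : maxCrossVol (relBall K) ≤ volume (relBall K) := by
    refine iSup_le fun c => iSup_le fun v => iSup_le fun h => measure_mono h
  exact ne_top_of_le_ne_top (relBall_compact hK).measure_lt_top.ne h

theorem maxCrossVol_ne_zero {d : ℕ} (hd : 1 ≤ d) {K : Set (Fin d → ℝ)} (hK : IsConvexBody K) :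
    maxCrossVol (relBall K) ≠ 0 := by
  -- a small multiple of the unit vectors lies in the ball
  obtain ⟨ε, hε, hball⟩ := Metric.mem_nhds_iff.mp (relBall_zero_nhds hK)
  let v : Fin d → (Fin d → ℝ) := fun i => Pi.single i (ε / 2)
  have hnorm : ∀ i, ‖v i‖ < ε := by
    intro i
    have : ‖v i‖ = ε / 2 := by
      simp only [v, Pi.norm_single]
      rw [Real.norm_of_nonneg (by positivity)]
    rw [this]; linarith
  have hmem : ∀ i, v i ∈ relBall K := fun i => hball (by
    rw [mem_ball_zero_iff]; exact hnorm i)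
  have hsub : cross 0 v ⊆ relBall K := by
    apply convexHull_min _ (relBall_convex hK)
    rintro _ (⟨i, rfl⟩ | ⟨i, rfl⟩)
    · simpa using hmem i
    · simpa using relBall_neg (hmem i)
  have hle : volume (cross 0 v) ≤ maxCrossVol (relBall K) :=
    le_iSup_of_le 0 (le_iSup_of_le v (le_iSup_of_le hsub le_rfl))
  have hvol : volume (cross 0 v) = ENNReal.ofReal |(Matrix.of v).det| *
      ENNReal.ofReal (2 ^ d / d.factorial) := crossPolytope_volume hd 0 v
  have hdet : (Matrix.of v).det = (ε / 2) ^ d := by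
    have : Matrix.of v = Matrix.diagonal (fun _ => ε / 2) := by
      ext i j
      simp only [Matrix.of_apply, v, Matrix.diagonal_apply, Pi.single_apply]
      by_cases h : i = j
      · simp [h]
      · have h' : ¬ j = i := fun h2 => h h2.symm
        simp [h, h']
    rw [this, Matrix.det_diagonal]
    simp only [Finset.prod_const, Finset.card_univ, Fintype.card_fin]
  intro h0
  rw [h0, nonpos_iff_eq_zero, hvol, hdet, mul_eq_zero, ENNReal.ofReal_eq_zero,
    ENNReal.ofReal_eq_zero] at hle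
  rcases hle with h | h
  · have : 0 < |(ε / 2) ^ d| := by positivity
    linarith
  · have : (0:ℝ) < 2 ^ d / d.factorial := by positivity
    linarith

/-- the constant -/
theorem const_eq (d : ℕ) : ENNReal.ofReal (2 ^ d * (d + 1) / d.factorial) =
    ENNReal.ofReal (2 ^ d / d.factorial) * ((d + 1 : ℕ) : ENNReal) := by
  have : ((d + 1 : ℕ) : ENNReal) = ENNReal.ofReal (d + 1) := by
    rw [ENNReal.ofReal_add (by positivity) (by norm_num)]
    simp
  rw [this, ← ENNReal.ofReal_mul (by positivity)]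
  congr 1
  ring

theorem lower {d : ℕ} (hd : 1 ≤ d) {K : Set (Fin d → ℝ)} (hK : IsConvexBody K) :
    ENNReal.ofReal (2 ^ d * (d + 1) / d.factorial) ≤ cTrMass K := by
  set V := maxCrossVol (relBall K) with hV
  have hV0 : V ≠ 0 := maxCrossVol_ne_zero hd hK
  have hVt : V ≠ ⊤ := maxCrossVol_ne_top hK
  set S := ⨆ (p : Fin d → ℝ) (_ : ((p +ᵥ K) ∩ K).Nonempty),
    volume (convexHull ℝ (K ∪ (p +ᵥ K))) with hS
  have hcT : cTrMass K = ENNReal.ofReal (2 ^ d / d.factorial) / V * S := by
    simp only [cTrMass, massVol, hS, ENNReal.mul_iSup, hV]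
  have key : ((d + 1 : ℕ) : ENNReal) * V ≤ S := by
    rw [hV, maxCrossVol]
    simp only [ENNReal.mul_iSup]
    refine iSup_le fun c => iSup_le fun v => iSup_le fun hsub => ?_
    -- the semi-axes are in M
    have hmem : ∀ i, v i ∈ relBall K := by
      intro i
      have h1 : c + v i ∈ relBall K := hsub (subset_convexHull ℝ _ (Or.inl ⟨i, rfl⟩))
      have h2 : c - v i ∈ relBall K := hsub (subset_convexHull ℝ _ (Or.inr ⟨i, rfl⟩))
      have := (relBall_convex hK) h1 (relBall_neg h2) (by norm_num : (0:ℝ) ≤ 1/2)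
        (by norm_num : (0:ℝ) ≤ 1/2) (by norm_num)
      convert this using 1
      module
    obtain ⟨n, rfl⟩ : ∃ n, d = n + 1 := ⟨d - 1, by omega⟩
    have hlow := hull_ge hK.1 hK.2.1 (fun i => (2:ℝ) • v i) (fun i => relBall_chord (hmem i))
    have hp : (((2:ℝ) • v 0 +ᵥ K) ∩ K).Nonempty := by
      obtain ⟨a, ha, ha1⟩ := relBall_chord (hmem 0)
      exact ⟨a + (2:ℝ) • v 0, ⟨a, ha, by simp [add_comm]⟩, ha1⟩
    refine le_iSup_of_le ((2:ℝ) • v 0) (le_iSup_of_le hp ?_)
    refine le_trans (le_of_eq ?_) hlow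
    have hvol : volume (cross c v) = ENNReal.ofReal |(Matrix.of v).det| *
      ENNReal.ofReal (2 ^ (n + 1) / (n + 1).factorial) := crossPolytope_volume hd c v
    rw [hvol]
    have hdet : (Matrix.of (fun i => (2:ℝ) • v i)).det = 2 ^ (n + 1) * (Matrix.of v).det := by
      have : Matrix.of (fun i => (2:ℝ) • v i) = (2:ℝ) • Matrix.of v := by
        ext i j; simp
      rw [this, Matrix.det_smul]
      simp
    rw [hdet, abs_mul, ENNReal.ofReal_mul (abs_nonneg _)]
    have h3 : ENNReal.ofReal (2 ^ (n + 1) / (n + 1).factorial) =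
        ENNReal.ofReal |(2:ℝ) ^ (n + 1)| * (((n + 1).factorial : ENNReal))⁻¹ := by
      rw [abs_of_pos (by positivity), ENNReal.ofReal_div_of_pos (by positivity),
        ENNReal.ofReal_natCast, div_eq_mul_inv]
    rw [h3]
    ring
  rw [hcT, const_eq]
  generalize ENNReal.ofReal (2 ^ d / d.factorial) = C
  have h1 : V⁻¹ * V = 1 := ENNReal.inv_mul_cancel hV0 hVt
  calc C * ((d + 1 : ℕ) : ENNReal) = C * ((d + 1 : ℕ) : ENNReal) * (V⁻¹ * V) := by
        rw [h1, mul_one]
    _ = C * V⁻¹ * (((d + 1 : ℕ) : ENNReal) * V) := by ring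
    _ ≤ C / V * S := by
        rw [div_eq_mul_inv]
        gcongr

/-- The cross-polytope with semi-axes `1/2` attains the minimum. -/
theorem attained {d : ℕ} (hd : 1 ≤ d) :
    IsConvexBody ((1 / 2 : ℝ) • ball1 d) ∧
      cTrMass ((1 / 2 : ℝ) • ball1 d) = ENNReal.ofReal (2 ^ d * (d + 1) / d.factorial) := by
  set K : Set (Fin d → ℝ) := (1 / 2 : ℝ) • ball1 d with hKdef
  have hclosed : IsClosed (ball1 d) := by
    have : Continuous (fun x : Fin d → ℝ => ∑ i, |x i|) := by fun_prop
    exact isClosed_le this continuous_const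
  have hbdd : Bornology.IsBounded (ball1 d) := by
    rw [isBounded_iff_forall_norm_le]
    refine ⟨1, fun x hx => ?_⟩
    rw [pi_norm_le_iff_of_nonneg zero_le_one]
    intro i
    rw [Real.norm_eq_abs]
    exact (Finset.single_le_sum (f := fun i => |x i|) (fun j _ => abs_nonneg _)
      (Finset.mem_univ i)).trans hx
  have hbc : IsCompact (ball1 d) := Metric.isCompact_of_isClosed_isBounded hclosed hbdd
  have hint : (interior (ball1 d)).Nonempty := by
    refine ⟨0, ?_⟩
    rw [mem_interior_iff_mem_nhds]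
    have hc : Continuous (fun x : Fin d → ℝ => ∑ i, |x i|) := by fun_prop
    have : {x : Fin d → ℝ | ∑ i, |x i| < 1} ∈ nhds (0 : Fin d → ℝ) := by
      apply (isOpen_lt hc continuous_const).mem_nhds
      simp
    refine Filter.mem_of_superset this (fun x hx => ?_)
    have hx' : ∑ i, |x i| < 1 := hx
    exact hx'.le
  have hK : IsConvexBody K := by
    refine ⟨hbc.smul _, (ball1_convex d).smul _, ?_⟩
    rw [hKdef, interior_smul₀ (by norm_num)]
    exact hint.smul_set
  refine ⟨hK, le_antisymm ?_ (lower hd hK)⟩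
  -- K is a cross-polytope
  have hKcross : K = cross 0 (fun i => Pi.single i (1 / 2 : ℝ)) := by
    have h1 := crossPolytope_eq hd 0 (fun i => (Pi.single i (1 / 2 : ℝ) : Fin d → ℝ))
    have h2 : cross 0 (fun i => (Pi.single i (1 / 2 : ℝ) : Fin d → ℝ)) =
      crossPolytope 0 (fun i => (Pi.single i (1 / 2 : ℝ) : Fin d → ℝ)) := rfl
    rw [h2, h1, hKdef]
    have h3 : ∀ x : Fin d → ℝ, vL (fun i => (Pi.single i (1 / 2 : ℝ) : Fin d → ℝ)) x = (1/2 : ℝ) • x := by
      intro x
      rw [vL_apply]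
      ext j
      simp [Finset.sum_apply, Pi.single_apply, mul_comm]
    ext y
    simp only [mem_smul_set, mem_image, h3, zero_add, exists_exists_and_eq_and]
  have hKM : relBall K = K := by
    apply Subset.antisymm
    · rintro _ ⟨_, ⟨a, ha, b, hb, rfl⟩, rfl⟩
      have hb' : -b ∈ K := by
        obtain ⟨b', hb', rfl⟩ := hb
        refine ⟨-b', ?_, by simp⟩
        simpa [ball1] using hb'
      have := hK.2.1 ha hb' (by norm_num : (0:ℝ) ≤ 1/2) (by norm_num : (0:ℝ) ≤ 1/2) (by norm_num)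
      convert this using 1
      simp only
      module
    · intro a ha
      have ha' : -a ∈ K := by
        obtain ⟨b', hb', rfl⟩ := ha
        refine ⟨-b', ?_, by simp⟩
        simpa [ball1] using hb'
      refine ⟨a - (-a), ⟨a, ha, -a, ha', rfl⟩, ?_⟩
      simp only
      module
  set V := maxCrossVol (relBall K) with hV
  have hV0 : V ≠ 0 := maxCrossVol_ne_zero hd hK
  have hVt : V ≠ ⊤ := maxCrossVol_ne_top hK
  have hVK : volume K ≤ V := by
    rw [hV, hKM]
    refine le_iSup_of_le 0 (le_iSup_of_le (fun i => Pi.single i (1 / 2 : ℝ)) ?_)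
    rw [← hKcross]
    exact le_iSup_of_le Subset.rfl le_rfl
  rw [const_eq]
  refine iSup_le fun p => iSup_le fun hp => ?_
  obtain ⟨_, ⟨a, ha, rfl⟩, ha1⟩ := hp
  obtain ⟨n, rfl⟩ : ∃ n, d = n + 1 := ⟨d - 1, by omega⟩
  have hup := hull_le_general hK.1 hK.2.1 p ha (by simpa [add_comm] using ha1)
  rw [massVol, ← hV]
  generalize ENNReal.ofReal (2 ^ (n + 1) / (n + 1).factorial) = C
  have h1 : V⁻¹ * V = 1 := ENNReal.inv_mul_cancel hV0 hVt
  calc C / V * volume (convexHull ℝ (K ∪ (p +ᵥ K)))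
      ≤ C / V * (((n + 2 : ℕ) : ENNReal) * V) := by
        gcongr
        exact hup.trans (by gcongr)
    _ = C * ((n + 2 : ℕ) : ENNReal) * (V⁻¹ * V) := by
        rw [div_eq_mul_inv]; ring
    _ = C * ((n + 1 + 1 : ℕ) : ENNReal) := by rw [h1, mul_one]

/-- For every dimension `d ≥ 1`, the minimum of `c_tr^m(K)` (Gromov's mass) over all convex bodies
`K` in `ℝ^d` is `2^d (d+1) / d!`, and it is attained. -/
theorem result (d : ℕ) (hd : 1 ≤ d) :
    IsLeast {c : ENNReal | ∃ K : Set (Fin d → ℝ), IsConvexBody K ∧ c = cTrMass K}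
      (ENNReal.ofReal (2 ^ d * (d + 1) / d.factorial)) := by
  constructor
  · obtain ⟨h1, h2⟩ := attained hd
    exact ⟨_, h1, h2.symm⟩
  · rintro _ ⟨K, hK, rfl⟩
    exact lower hd hK

end Pool.Agent.Results.MP_87489e_co.MassMinimum
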